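import Pool.Agent.Helper57.ZD.Dim

/-! Project ZD, piece Core, numeric end. -/

set_option autoImplicit false

namespace Pool.Agent.Helper98.ZD

open Finset Pool.ZD

/-- The inequality in logarithms is false. -/
theorem num_log (δ : ℝ) (hδ : 0 < δ) (hδ1 : δ ≤ 1 / 2) (s K : ℕ) (hs : 1 ≤ s) (hK : 16 / δ ≤ K) (c0 : ℝ)
    (hc0 : 1 ≤ c0) (X C T1 : ℕ) (J1 J2 Lp LY SQ SK LF : ℝ) (hX : 32 * s * (c0 + 1) / δ ≤ X)
    (hLp : 32 * s * (c0 + 1) / δ ≤ Lp) (hT : (T1 : ℝ) ≤ δ * X / 8) (hC : (C : ℝ) ≤ (1 + δ / 4) * X)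
    (hJ2 : 0 < J2) (hJ : J1 ≤ c0 * J2) (hLF : LF ≤ 2 * c0 * J2 * (1 + s * X))
    (hLY0 : 0 ≤ LY) (hLY : LY ≤ (1 - δ) * Lp) (hSQ : SQ ≤ Lp) (hSK : SK ≤ 6 * X * Lp)
    (h : (X - T1 : ℝ) * J2 * Lp ≤ LF + J1 * (C * Real.log 2) +
      J2 * (C * Real.log 2 + (C * LY + (C / K * SQ + 2 * (δ / 100) * SK + SQ)))) : False := by
  have hs1 : (1 : ℝ) ≤ s := by exact_mod_cast hs
  have hW : 64 ≤ 32 * s * (c0 + 1) := by nlinarith
  have hX0 : 0 < (X : ℝ) := lt_of_lt_of_le (by positivity) hX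
  have hLp0 : 0 < Lp := lt_of_lt_of_le (by positivity) hLp
  have hXW : 32 * s * (c0 + 1) ≤ δ * X := by
    rw [div_le_iff₀ hδ] at hX
    linarith
  have hLW : 32 * s * (c0 + 1) ≤ δ * Lp := by
    rw [div_le_iff₀ hδ] at hLp
    linarith
  have hlog2 : Real.log 2 ≤ 1 := by
    have := Real.log_two_lt_d9
    linarith
  have hlog20 : 0 ≤ Real.log 2 := Real.log_nonneg (by norm_num)
  have hC0 : (0 : ℝ) ≤ C := Nat.cast_nonneg _
  have hK0 : (0 : ℝ) < K := lt_of_lt_of_le (by positivity) hK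
  have hC2 : (C : ℝ) ≤ 2 * X := by nlinarith
  -- the terms
  have t1 : (C : ℝ) * LY ≤ (1 - 3 * δ / 4) * (X * Lp) := by
    calc (C : ℝ) * LY ≤ (1 + δ / 4) * X * ((1 - δ) * Lp) :=
          mul_le_mul hC hLY hLY0 (by positivity)
      _ = ((1 + δ / 4) * (1 - δ)) * (X * Lp) := by ring
      _ ≤ _ := mul_le_mul_of_nonneg_right (by nlinarith) (by positivity)
  have t2 : (C : ℝ) / K * SQ ≤ δ / 8 * (X * Lp) := by
    have h1 : (C : ℝ) / K ≤ δ / 8 * X := by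
      rw [div_le_iff₀ hK0]
      rw [div_le_iff₀ hδ] at hK
      nlinarith
    calc (C : ℝ) / K * SQ ≤ (C : ℝ) / K * Lp := mul_le_mul_of_nonneg_left hSQ (by positivity)
      _ ≤ δ / 8 * X * Lp := mul_le_mul_of_nonneg_right h1 hLp0.le
      _ = _ := by ring
  have t3 : 2 * (δ / 100) * SK ≤ 3 * δ / 25 * (X * Lp) := by
    calc 2 * (δ / 100) * SK ≤ 2 * (δ / 100) * (6 * X * Lp) := mul_le_mul_of_nonneg_left hSK (by positivity)
      _ = _ := by ring
  have t4 : SQ ≤ δ / 16 * (X * Lp) := by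
    calc SQ ≤ 1 * Lp := by linarith
      _ ≤ (δ / 16 * X) * Lp := mul_le_mul_of_nonneg_right (by nlinarith) hLp0.le
      _ = _ := by ring
  have t5 : (C : ℝ) * Real.log 2 ≤ 2 * X := by
    calc (C : ℝ) * Real.log 2 ≤ C * 1 := mul_le_mul_of_nonneg_left hlog2 hC0
      _ ≤ 2 * X := by linarith
  have t5' : (c0 + 1) * (2 * X) ≤ δ / 16 * (X * Lp) := by
    have h1 : 32 * (c0 + 1) ≤ δ * Lp := by nlinarith
    nlinarith
  have t6 : 2 * c0 * (1 + s * X) ≤ δ / 8 * (X * Lp) := by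
    have hX1 : (1 : ℝ) ≤ X := by
      by_contra h1
      push Not at h1
      nlinarith
    have h1 : 1 + (s : ℝ) * X ≤ 2 * (s * X) := by nlinarith
    have h2 : 32 * s * c0 ≤ δ * Lp := by nlinarith
    calc 2 * c0 * (1 + s * X) ≤ 2 * c0 * (2 * (s * X)) := mul_le_mul_of_nonneg_left h1 (by positivity)
      _ = 1 / 8 * X * (32 * s * c0) := by ring
      _ ≤ 1 / 8 * X * (δ * Lp) := mul_le_mul_of_nonneg_left h2 (by positivity)
      _ = _ := by ring
  -- divide by `J2`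
  have hJ1 : J1 * (C * Real.log 2) ≤ c0 * J2 * (2 * X) := by
    calc J1 * (C * Real.log 2) ≤ c0 * J2 * (C * Real.log 2) := mul_le_mul_of_nonneg_right hJ (by positivity)
      _ ≤ c0 * J2 * (2 * X) := mul_le_mul_of_nonneg_left t5 (by positivity)
  have h2 : (X - T1 : ℝ) * Lp ≤ 2 * c0 * (1 + s * X) + c0 * (2 * X) +
      (2 * X + (C * LY + (C / K * SQ + 2 * (δ / 100) * SK + SQ))) := by
    refine le_of_mul_le_mul_left ?_ hJ2
    calc J2 * ((X - T1 : ℝ) * Lp) = (X - T1 : ℝ) * J2 * Lp := by ring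
      _ ≤ _ := h
      _ ≤ 2 * c0 * J2 * (1 + s * X) + c0 * J2 * (2 * X) +
          J2 * (2 * X + (C * LY + (C / K * SQ + 2 * (δ / 100) * SK + SQ))) :=
          add_le_add (add_le_add hLF hJ1) (mul_le_mul_of_nonneg_left (by linarith) hJ2.le)
      _ = _ := by ring
  have h3 : (1 - δ / 8) * (X * Lp) ≤ (X - T1 : ℝ) * Lp := by
    calc (1 - δ / 8) * (X * Lp) = (X - δ * X / 8) * Lp := by ring
      _ ≤ (X - T1 : ℝ) * Lp := mul_le_mul_of_nonneg_right (by linarith) hLp0.le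
  have h4 : 0 < δ * (X * Lp) := by positivity
  nlinarith

/-- The numbers of columns. -/
theorem card_ratio (δ : ℝ) (hδ : 0 < δ) (hδ1 : δ ≤ 1 / 2) (s X T1 : ℕ) (hs : 1 ≤ s) (hX : 32 * s / δ ≤ X)
    (hT : T1 = ⌊δ * X / 8⌋₊) :
    (X : ℝ) ^ s ≤ (16 * s / δ) ^ s * #(JJ s T1) ∧ 0 < (#(JJ s T1) : ℝ) := by
  have hs1 : (1 : ℝ) ≤ s := by exact_mod_cast hs
  have hs0 : (0 : ℝ) < s := by linarith
  have hX0 : 0 < (X : ℝ) := lt_of_lt_of_le (by positivity) hX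
  have h1 : 32 * s ≤ δ * X := by
    rw [div_le_iff₀ hδ] at hX
    linarith
  have hT1 : δ * X / 8 - 1 < T1 := by
    rw [hT]
    linarith [Nat.lt_floor_add_one (δ * X / 8)]
  have hT0 : 1 ≤ T1 := by
    have : (0 : ℝ) < T1 := by linarith
    exact_mod_cast this
  set m := T1 / s with hm
  have hm1 : δ * X / (16 * s) ≤ m := by
    have h2 : (T1 : ℝ) < s * (m + 1) := by
      have := Nat.lt_mul_div_succ T1 (show 0 < s by omega)
      rw [← hm] at this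
      exact_mod_cast this
    rw [div_le_iff₀ (by positivity)]
    nlinarith
  have h3 : m ^ s ≤ #(JJ s T1) := card_JJ_ge s T1 m hT0 (by rw [hm]; exact Nat.mul_div_le T1 s)
  have h4 : (m : ℝ) ^ s ≤ #(JJ s T1) := by exact_mod_cast h3
  have h5 : (δ * X / (16 * s)) ^ s ≤ (#(JJ s T1) : ℝ) := (pow_le_pow_left₀ (by positivity) hm1 s).trans h4
  refine ⟨?_, lt_of_lt_of_le (by positivity) h5⟩
  calc (X : ℝ) ^ s = (16 * s / δ) ^ s * (δ * X / (16 * s)) ^ s := by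
        rw [← mul_pow]
        congr 1
        field_simp
    _ ≤ _ := mul_le_mul_of_nonneg_left h5 (by positivity)

/-- The inequality is false. -/
theorem core_end (δ : ℝ) (hδ : 0 < δ) (hδ1 : δ ≤ 1 / 2) (s K : ℕ) (hs : 1 ≤ s) (hK : 16 / δ ≤ K) :
    ∃ W : ℝ, 1 ≤ W ∧ ∀ (Q : Finset ℕ) (k : ℕ → ℤ) (P X Y C T1 : ℕ), T1 = ⌊δ * X / 8⌋₊ →
      C = ⌊(1 + δ / 4) * X⌋₊ → W ≤ X → W ≤ Real.log P → 1 ≤ Y → Real.log Y ≤ (1 - δ) * Real.log P →
      ∑ q ∈ Q, Real.log q ≤ Real.log P → ∑ q ∈ Q, |(k q : ℝ)| * Real.log q ≤ 6 * X * Real.log P →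
      ((P : ℝ) ^ (X - T1)) ^ #(JJ s T1) ≤
        ((#(JJ s X) + #(JJ s T1)).factorial : ℝ) * ((2 : ℝ) ^ C) ^ #(JJ s X) *
          ((2 : ℝ) ^ C * ((Y : ℝ) ^ C * Real.exp (∑ q ∈ Q,
            ((C : ℝ) / K + 2 * (δ / 100) * |(k q : ℝ)| + 1) * Real.log q))) ^ #(JJ s T1) → False := by
  have hs1 : (1 : ℝ) ≤ s := by exact_mod_cast hs
  set c0 : ℝ := (16 * s / δ) ^ s with hc0
  have hb : 1 ≤ 16 * s / δ := by
    rw [le_div_iff₀ hδ]
    nlinarith
  have hc1 : 1 ≤ c0 := one_le_pow₀ hb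
  refine ⟨32 * s * (c0 + 1) / δ, ?_, ?_⟩
  · rw [le_div_iff₀ hδ]
    nlinarith
  intro Q k P X Y C T1 hT hC hX hLp hY hLY hSQ hSK h
  have hX' : 32 * s / δ ≤ X := by
    refine le_trans ?_ hX
    refine div_le_div_of_nonneg_right ?_ hδ.le
    nlinarith
  obtain ⟨h1, hJ2⟩ := card_ratio δ hδ hδ1 s X T1 hs hX' hT
  rw [← hc0] at h1
  set J1 := #(JJ s X) with hJ1d
  set J2 := #(JJ s T1) with hJ2d
  have hX0 : 0 < (X : ℝ) := lt_of_lt_of_le (by positivity) hX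
  have hX1 : 1 ≤ X := by exact_mod_cast hX0
  have hXr : (1 : ℝ) ≤ X := by exact_mod_cast hX1
  have hT1 : (T1 : ℝ) ≤ δ * X / 8 := by
    rw [hT]
    exact Nat.floor_le (by positivity)
  have hTX : T1 ≤ X := by
    have : (T1 : ℝ) ≤ X := by nlinarith
    exact_mod_cast this
  have hJ1X : (J1 : ℝ) ≤ (X : ℝ) ^ s := by exact_mod_cast card_JJ_le s X
  have hJ2X : (J2 : ℝ) ≤ (X : ℝ) ^ s := by
    have h2 : J2 ≤ X ^ s := (card_JJ_le s T1).trans (Nat.pow_le_pow_left hTX s)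
    exact_mod_cast h2
  have hJ : (J1 : ℝ) ≤ c0 * J2 := hJ1X.trans h1
  have hLp0 : 0 < Real.log P := lt_of_lt_of_le (by positivity) hLp
  have hP0 : (0 : ℝ) < P := by
    rcases Nat.eq_zero_or_pos P with h2 | h2
    · rw [h2] at hLp0
      simp at hLp0
    · exact_mod_cast h2
  have hY0 : (0 : ℝ) < Y := by exact_mod_cast hY
  -- the logarithm of the factorial
  have hLF : Real.log (((J1 + J2).factorial : ℕ) : ℝ) ≤ 2 * c0 * J2 * (1 + s * X) := by
    have hJJ : (0 : ℝ) < ((J1 + J2 : ℕ) : ℝ) := by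
      push_cast
      linarith [Nat.cast_nonneg (α := ℝ) J1]
    have h2 : (((J1 + J2).factorial : ℕ) : ℝ) ≤ ((J1 + J2 : ℕ) : ℝ) ^ (J1 + J2) := by
      exact_mod_cast Nat.factorial_le_pow (J1 + J2)
    have h3 : Real.log (((J1 + J2).factorial : ℕ) : ℝ) ≤ (J1 + J2 : ℕ) * Real.log ((J1 + J2 : ℕ) : ℝ) := by
      rw [← Real.log_pow]
      exact Real.log_le_log (by exact_mod_cast Nat.factorial_pos _) h2
    have h4 : Real.log ((J1 + J2 : ℕ) : ℝ) ≤ 1 + s * X := by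
      have h5 : ((J1 + J2 : ℕ) : ℝ) ≤ 2 * (X : ℝ) ^ s := by
        push_cast
        linarith
      have h6 : Real.log (2 * (X : ℝ) ^ s) = Real.log 2 + s * Real.log X := by
        rw [Real.log_mul (by norm_num) (by positivity), Real.log_pow]
      have h7 : Real.log X ≤ X := by
        have := Real.log_le_sub_one_of_pos hX0
        linarith
      have h8 : Real.log 2 ≤ 1 := by
        have := Real.log_two_lt_d9
        linarith
      calc Real.log ((J1 + J2 : ℕ) : ℝ) ≤ Real.log (2 * (X : ℝ) ^ s) := Real.log_le_log hJJ h5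
        _ = Real.log 2 + s * Real.log X := h6
        _ ≤ 1 + s * X := add_le_add h8 (mul_le_mul_of_nonneg_left h7 (by positivity))
    calc Real.log (((J1 + J2).factorial : ℕ) : ℝ) ≤ (J1 + J2 : ℕ) * Real.log ((J1 + J2 : ℕ) : ℝ) := h3
      _ ≤ (J1 + J2 : ℕ) * (1 + s * X) := mul_le_mul_of_nonneg_left h4 (Nat.cast_nonneg _)
      _ ≤ (2 * c0 * J2) * (1 + s * X) := by
          refine mul_le_mul_of_nonneg_right ?_ (by positivity)
          push_cast
          nlinarith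
  refine num_log δ hδ hδ1 s K hs hK c0 hc1 X C T1 J1 J2 (Real.log P) (Real.log Y) (∑ q ∈ Q, Real.log q)
    (∑ q ∈ Q, |(k q : ℝ)| * Real.log q) (Real.log (((J1 + J2).factorial : ℕ) : ℝ)) hX hLp hT1 ?_ hJ2 hJ hLF
    (Real.log_nonneg (by exact_mod_cast hY)) hLY hSQ hSK ?_
  · rw [hC]
    exact Nat.floor_le (by positivity)
  -- logarithms
  have hlog := Real.log_le_log (by positivity) h
  rw [Real.log_pow, Real.log_pow, Real.log_mul (by positivity) (by positivity),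
    Real.log_mul (by positivity) (by positivity), Real.log_pow, Real.log_pow, Real.log_pow,
    Real.log_mul (by positivity) (by positivity), Real.log_mul (by positivity) (by positivity), Real.log_pow,
    Real.log_pow, Real.log_exp, Nat.cast_sub hTX] at hlog
  have hsum : ∑ q ∈ Q, ((C : ℝ) / K + 2 * (δ / 100) * |(k q : ℝ)| + 1) * Real.log q =
      C / K * ∑ q ∈ Q, Real.log q + 2 * (δ / 100) * ∑ q ∈ Q, |(k q : ℝ)| * Real.log q + ∑ q ∈ Q, Real.log q := by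
    rw [mul_sum, mul_sum, ← sum_add_distrib, ← sum_add_distrib]
    exact sum_congr rfl fun q _ => by ring
  rw [hsum] at hlog
  calc ((X : ℝ) - T1) * J2 * Real.log P = J2 * (((X : ℝ) - T1) * Real.log P) := by ring
    _ ≤ _ := hlog
    _ = _ := by ring

end Pool.Agent.Helper98.ZD
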