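import Pool.Agent.Helper57.ZD.Cop

/-! Project ZD, piece Main, the numbers and the pigeonhole inequality. -/

set_option autoImplicit false

namespace Pool.Agent.Helper98.ZD

open Finset Pool.ZD

/-- The logarithm against a small power. -/
theorem log_le_pow (η : ℝ) (hη : 0 < η) (N : ℕ) (hN : 1 ≤ N) : Real.log N ≤ 1 / η * (N : ℝ) ^ η := by
  have hN0 : (0 : ℝ) < N := by exact_mod_cast hN
  have h1 : η * Real.log N ≤ (N : ℝ) ^ η := by
    have h2 := Real.add_one_le_exp (η * Real.log N)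
    have h3 : (N : ℝ) ^ η = Real.exp (η * Real.log N) := by
      rw [Real.rpow_def_of_pos hN0, mul_comm]
    rw [h3]
    linarith
  rw [one_div, inv_mul_eq_div, le_div_iff₀ hη]
  linarith

theorem main_num (ε : ℝ) (hε : 0 < ε) (hε1 : ε ≤ 1) (r K : ℕ) (hK : 1 ≤ K) (W : ℝ) (hW : 1 ≤ W) :
    ∃ l0 C : ℝ, W ≤ l0 ∧ 1 ≤ C ∧ ∀ (N : ℕ) (L : ℝ), 1 ≤ N → C * (N : ℝ) ^ ε < L → ∀ X : ℕ,
      X = ⌊L / (4 * (Real.log N + l0))⌋₊ → 1 ≤ X ∧ (X : ℝ) * (4 * (Real.log N + l0)) ≤ L ∧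
      ∃ A : ℕ, A.Prime ∧ W ≤ A ∧ W * A ≤ X ∧ ∀ (P : ℕ) (Q : Finset ℕ), L / X - Real.log N ≤ Real.log P →
        Real.log P ≤ L / X → #Q ≤ #N.primeFactors → W ≤ Real.log P ∧ Real.log N ≤ Real.log P ∧
        4 * L ≤ 6 * X * Real.log P ∧ ∃ y : ℕ, 1 ≤ y ∧ N * y < P ∧
          Real.log ((N * y : ℕ) : ℝ) ≤ (1 - ε / 20) * Real.log P ∧
          r * (P * K ^ #Q) < A * #{s ∈ Icc 1 (N * y) | s.Coprime N} := by
  obtain ⟨C1, hC1, hom⟩ := omega_bound (2 * K) (ε / 20) (by positivity)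
  set l0 : ℝ := W with hl0
  set C2 : ℝ := 20 / ε + l0 with hC2
  have hl1 : 1 ≤ l0 := hW
  have hC21 : 1 ≤ C2 := by
    rw [hC2]
    have : 0 < 20 / ε := by positivity
    linarith
  -- the constants
  set C3 : ℝ := 2 * (r + 1) * C1 * Real.exp (2 * ε / 5 * l0) with hC3
  have hC31 : 1 ≤ C3 := by
    rw [hC3]
    have h1 : 1 ≤ Real.exp (2 * ε / 5 * l0) := Real.one_le_exp (by positivity)
    have h2 : (1 : ℝ) ≤ 2 * (r + 1) := by
      have : (0 : ℝ) ≤ r := Nat.cast_nonneg _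
      linarith
    exact one_le_mul_of_one_le_of_one_le (one_le_mul_of_one_le_of_one_le h2 hC1) h1
  set V : ℝ := 2 * W + 2 with hV
  have hV4 : 4 ≤ V := by
    rw [hV]
    linarith
  refine ⟨l0, 8 * C2 * V ^ 2 * C3, le_refl _, ?_, ?_⟩
  · have h1 : (1 : ℝ) ≤ V ^ 2 := by nlinarith
    exact one_le_mul_of_one_le_of_one_le (one_le_mul_of_one_le_of_one_le (by linarith) h1) hC31
  intro N L hN hL X hX
  have hN0 : (0 : ℝ) < N := by exact_mod_cast hN
  have hN1 : (1 : ℝ) ≤ N := by exact_mod_cast hN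
  set lN := Real.log N with hlN
  have hlN0 : 0 ≤ lN := Real.log_nonneg hN1
  set l : ℝ := lN + l0 with hl
  have hl1' : 1 ≤ l := by linarith
  have hpow : ∀ x : ℝ, 0 ≤ x → 1 ≤ (N : ℝ) ^ x := fun x hx => Real.one_le_rpow hN1 hx
  have hlC : l ≤ C2 * (N : ℝ) ^ (ε / 20) := by
    have h1 := log_le_pow (ε / 20) (by positivity) N hN
    have h2 := hpow (ε / 20) (by positivity)
    have h3 : 1 / (ε / 20) = 20 / ε := by field_simp
    rw [h3] at h1
    have h4 : l0 ≤ l0 * (N : ℝ) ^ (ε / 20) := le_mul_of_one_le_right (by linarith) h2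
    rw [hl, hC2, add_mul]
    linarith
  have hNe : (N : ℝ) ^ ε = (N : ℝ) ^ (ε / 20) * (N : ℝ) ^ (ε / 20) * (N : ℝ) ^ (2 * ε / 5) * (N : ℝ) ^ (ε / 2) := by
    rw [← Real.rpow_add hN0, ← Real.rpow_add hN0, ← Real.rpow_add hN0]
    congr 1
    ring
  -- `L / (8 l)` is large
  have hbig : V ^ 2 * (C3 * (N : ℝ) ^ (ε / 20) * (N : ℝ) ^ (2 * ε / 5)) < L / (8 * l) := by
    rw [lt_div_iff₀ (by positivity)]
    have h1 := hpow (ε / 2) (by positivity)
    have h2 : 0 < (N : ℝ) ^ (ε / 20) := Real.rpow_pos_of_pos hN0 _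
    have h3 : 0 < (N : ℝ) ^ (2 * ε / 5) := Real.rpow_pos_of_pos hN0 _
    calc V ^ 2 * (C3 * (N : ℝ) ^ (ε / 20) * (N : ℝ) ^ (2 * ε / 5)) * (8 * l)
        ≤ V ^ 2 * (C3 * (N : ℝ) ^ (ε / 20) * (N : ℝ) ^ (2 * ε / 5)) * (8 * (C2 * (N : ℝ) ^ (ε / 20))) :=
          mul_le_mul_of_nonneg_left (by linarith) (by positivity)
      _ = 8 * C2 * V ^ 2 * C3 * ((N : ℝ) ^ (ε / 20) * (N : ℝ) ^ (ε / 20) * (N : ℝ) ^ (2 * ε / 5)) := by ring
      _ ≤ 8 * C2 * V ^ 2 * C3 * ((N : ℝ) ^ (ε / 20) * (N : ℝ) ^ (ε / 20) * (N : ℝ) ^ (2 * ε / 5) *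
            (N : ℝ) ^ (ε / 2)) := by
          refine mul_le_mul_of_nonneg_left ?_ (by positivity)
          exact le_mul_of_one_le_right (by positivity) h1
      _ = 8 * C2 * V ^ 2 * C3 * (N : ℝ) ^ ε := by rw [hNe]
      _ < L := hL
  have hmid : 1 ≤ C3 * (N : ℝ) ^ (ε / 20) * (N : ℝ) ^ (2 * ε / 5) :=
    one_le_mul_of_one_le_of_one_le (one_le_mul_of_one_le_of_one_le hC31 (hpow _ (by positivity)))
      (hpow _ (by positivity))
  have hLl : V ^ 2 < L / (8 * l) := lt_of_le_of_lt (le_mul_of_one_le_right (by positivity) hmid) hbig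
  have hL0 : 0 < L := by
    have h1 : 0 < L / (8 * l) := lt_of_le_of_lt (by positivity) hLl
    by_contra h2
    push Not at h2
    exact absurd h1 (not_lt.2 (div_nonpos_of_nonpos_of_nonneg h2 (by positivity)))
  have h48 : L / (4 * l) = 2 * (L / (8 * l)) := by
    field_simp
    ring
  have hXl : L / (8 * l) ≤ X := by
    have h1 := Nat.lt_floor_add_one (L / (4 * l))
    rw [← hX, h48] at h1
    have h2 : (1 : ℝ) ≤ V ^ 2 := by nlinarith
    linarith
  have hXV : V ^ 2 < X := lt_of_lt_of_le hLl hXl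
  have hX0 : 0 < (X : ℝ) := lt_of_le_of_lt (by positivity) hXV
  have hX1 : 1 ≤ X := by exact_mod_cast hX0
  have hXu : (X : ℝ) * (4 * l) ≤ L := by
    have h1 : (X : ℝ) ≤ L / (4 * l) := by
      rw [hX]
      exact Nat.floor_le (by positivity)
    rwa [le_div_iff₀ (by positivity)] at h1
  refine ⟨hX1, hXu, ?_⟩
  -- the prime
  set n1 := ⌊(X : ℝ) / (2 * W)⌋₊ with hn1
  have hW0 : 0 < W := by linarith
  have hXW : V < X / (2 * W) := by
    rw [lt_div_iff₀ (by positivity)]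
    calc V * (2 * W) ≤ V * V := mul_le_mul_of_nonneg_left (by rw [hV]; linarith) (by linarith)
      _ = V ^ 2 := by ring
      _ < X := hXV
  have hn1u : (n1 : ℝ) ≤ X / (2 * W) := Nat.floor_le (by positivity)
  have hn1l : (X : ℝ) / (2 * W) - 1 < n1 := by
    have := Nat.lt_floor_add_one ((X : ℝ) / (2 * W))
    rw [← hn1] at this
    linarith
  have hn10 : n1 ≠ 0 := by
    intro h1
    rw [h1] at hn1l
    simp only [Nat.cast_zero] at hn1l
    linarith
  obtain ⟨A, hA, hA1, hA2⟩ := Nat.exists_prime_lt_and_le_two_mul n1 hn10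
  have hA1' : (n1 : ℝ) + 1 ≤ A := by exact_mod_cast hA1
  have hA2' : (A : ℝ) ≤ 2 * n1 := by exact_mod_cast hA2
  have hAX : (X : ℝ) / (2 * W) ≤ A := by linarith
  refine ⟨A, hA, ?_, ?_, ?_⟩
  · linarith
  · calc W * A ≤ W * (2 * (X / (2 * W))) := mul_le_mul_of_nonneg_left (by linarith) hW0.le
      _ = X := by field_simp
  intro P Q hP1 hP2 hQ
  have hLX : 4 * l ≤ L / X := by
    rw [le_div_iff₀ hX0]
    linarith
  set lP := Real.log P with hlP
  have hP3 : 3 * lN + 4 * l0 ≤ lP := by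
    have : 4 * l = 4 * lN + 4 * l0 := by rw [hl]; ring
    linarith
  have hlP0 : 0 < lP := by linarith
  have hP0 : (0 : ℝ) < P := by
    rcases Nat.eq_zero_or_pos P with h2 | h2
    · rw [hlP, h2] at hlP0
      simp at hlP0
    · exact_mod_cast h2
  refine ⟨by linarith, by linarith, ?_, ?_⟩
  · -- `4 L ≤ 6 X log P`
    have h1 : L - X * lN ≤ X * lP := by
      have h2 := mul_le_mul_of_nonneg_left hP1 hX0.le
      have h3 : (X : ℝ) * (L / X - lN) = L - X * lN := by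
        field_simp
      rw [h3] at h2
      exact h2
    have h2 : (X : ℝ) * (4 * lN) ≤ L := by
      refine le_trans (mul_le_mul_of_nonneg_left ?_ hX0.le) hXu
      rw [hl]
      linarith
    have h3 : (X : ℝ) * (4 * lN) = 4 * (X * lN) := by ring
    have h4 : 6 * (X : ℝ) * lP = 6 * (X * lP) := by ring
    rw [h4]
    linarith
  set E : ℝ := Real.exp ((1 - ε / 20) * lP) with hE
  have hE0 : 0 < E := Real.exp_pos _
  have hE2 : 2 * N ≤ E := by
    have h1 : Real.log (2 * N) ≤ (1 - ε / 20) * lP := by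
      rw [Real.log_mul (by norm_num) (by positivity), ← hlN]
      have h2 : Real.log 2 ≤ 1 := by
        have := Real.log_two_lt_d9
        linarith
      have h3 : 1 / 2 * lP ≤ (1 - ε / 20) * lP := mul_le_mul_of_nonneg_right (by linarith) hlP0.le
      linarith
    calc (2 : ℝ) * N = Real.exp (Real.log (2 * N)) := (Real.exp_log (by positivity)).symm
      _ ≤ E := Real.exp_le_exp.2 h1
  set y := ⌊E / N⌋₊ with hy
  have hyu : (y : ℝ) ≤ E / N := Nat.floor_le (by positivity)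
  have hyl : E / N - 1 < y := by
    have := Nat.lt_floor_add_one (E / N)
    rw [← hy] at this
    linarith
  have hy2 : 2 ≤ E / N := by
    rw [le_div_iff₀ hN0]
    linarith
  have hy1 : 1 ≤ y := by
    have h1 : (0 : ℝ) < y := by linarith
    exact_mod_cast h1
  have hNy : ((N * y : ℕ) : ℝ) ≤ E := by
    push_cast
    calc (N : ℝ) * y ≤ N * (E / N) := mul_le_mul_of_nonneg_left hyu hN0.le
      _ = E := by field_simp
  have hNyl : E / 2 ≤ ((N * y : ℕ) : ℝ) := by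
    push_cast
    have h1 : (N : ℝ) * (E / N - 1) ≤ N * y := mul_le_mul_of_nonneg_left hyl.le hN0.le
    have h2 : (N : ℝ) * (E / N - 1) = E - N := by field_simp
    linarith
  have hNy0 : 0 < ((N * y : ℕ) : ℝ) := by positivity
  have hPexp : (P : ℝ) = Real.exp lP := (Real.exp_log hP0).symm
  refine ⟨y, hy1, ?_, ?_, ?_⟩
  · have h1 : E < P := by
      rw [hPexp, hE]
      refine Real.exp_lt_exp.2 ?_
      have h3 : 0 < ε / 20 * lP := by positivity
      linarith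
    have h2 : ((N * y : ℕ) : ℝ) < P := lt_of_le_of_lt hNy h1
    exact_mod_cast h2
  · calc Real.log ((N * y : ℕ) : ℝ) ≤ Real.log E := Real.log_le_log hNy0 hNy
      _ = (1 - ε / 20) * lP := by rw [hE, Real.log_exp]
  -- the pigeonhole inequality
  set om := #N.primeFactors with hom'
  set Z := #{s ∈ Icc 1 (N * y) | s.Coprime N} with hZ
  have hcop := cop_count N y hN
  rw [← hom', ← hZ] at hcop
  have hcop' : ((N * y : ℕ) : ℝ) ≤ 2 ^ om * Z := by exact_mod_cast hcop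
  have hE' : E ≤ 2 * (2 ^ om * Z) := by linarith
  have hK1 : (1 : ℝ) ≤ K := by exact_mod_cast hK
  have hKQ : (K : ℝ) ^ #Q ≤ (K : ℝ) ^ om := pow_le_pow_right₀ hK1 hQ
  have hom2 : (2 : ℝ) ^ om * (K : ℝ) ^ om ≤ C1 * (N : ℝ) ^ (ε / 20) := by
    rw [← mul_pow]
    have := hom N hN
    push_cast at this
    exact this
  have hPE : (P : ℝ) = E * Real.exp (ε / 20 * lP) := by
    rw [hPexp, hE, ← Real.exp_add]
    congr 1
    ring
  have hPδ : Real.exp (ε / 20 * lP) ≤ (N : ℝ) ^ (2 * ε / 5) * Real.exp (2 * ε / 5 * l0) := by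
    have h1 : lP ≤ 8 * l := by
      refine hP2.trans ?_
      rw [div_le_iff₀ hX0]
      have := hXl
      rw [div_le_iff₀ (by positivity)] at this
      linarith
    calc Real.exp (ε / 20 * lP) ≤ Real.exp (ε / 20 * (8 * l)) :=
          Real.exp_le_exp.2 (mul_le_mul_of_nonneg_left h1 (by positivity))
      _ = Real.exp (lN * (2 * ε / 5)) * Real.exp (2 * ε / 5 * l0) := by
          rw [← Real.exp_add]
          congr 1
          rw [hl]
          ring
      _ = _ := by rw [Real.rpow_def_of_pos hN0]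
  have hA3 : C3 * (N : ℝ) ^ (ε / 20) * (N : ℝ) ^ (2 * ε / 5) < A := by
    have h1 : V ^ 2 * (C3 * (N : ℝ) ^ (ε / 20) * (N : ℝ) ^ (2 * ε / 5)) < X := lt_of_lt_of_le hbig hXl
    have h2 : (X : ℝ) ≤ V * A := by
      rw [div_le_iff₀ (by positivity)] at hAX
      have h3 : 2 * W ≤ V := by rw [hV]; linarith
      calc (X : ℝ) ≤ A * (2 * W) := hAX
        _ ≤ A * V := mul_le_mul_of_nonneg_left h3 (Nat.cast_nonneg A)
        _ = V * A := mul_comm _ _
    have h3 : V * (C3 * (N : ℝ) ^ (ε / 20) * (N : ℝ) ^ (2 * ε / 5)) < A := by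
      have h4 : V * (V * (C3 * (N : ℝ) ^ (ε / 20) * (N : ℝ) ^ (2 * ε / 5))) < V * A := by
        calc V * (V * (C3 * (N : ℝ) ^ (ε / 20) * (N : ℝ) ^ (2 * ε / 5))) =
            V ^ 2 * (C3 * (N : ℝ) ^ (ε / 20) * (N : ℝ) ^ (2 * ε / 5)) := by ring
          _ < X := h1
          _ ≤ V * A := h2
      exact lt_of_mul_lt_mul_left h4 (by positivity)
    refine lt_of_le_of_lt ?_ h3
    exact le_mul_of_one_le_left (by positivity) (by linarith)
  have hfin : (r : ℝ) * (P * (K : ℝ) ^ #Q) < A * Z := by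
    have hZ0 : 0 < (Z : ℝ) := by
      by_contra h1
      have h2 : (Z : ℝ) = 0 := le_antisymm (not_lt.1 h1) (Nat.cast_nonneg _)
      rw [h2] at hE'
      linarith
    have hr0 : (0 : ℝ) ≤ r := Nat.cast_nonneg _
    calc (r : ℝ) * (P * (K : ℝ) ^ #Q) ≤ (r + 1) * (P * (K : ℝ) ^ #Q) :=
          mul_le_mul_of_nonneg_right (by linarith) (by positivity)
      _ ≤ (r + 1) * (P * (K : ℝ) ^ om) :=
          mul_le_mul_of_nonneg_left (mul_le_mul_of_nonneg_left hKQ hP0.le) (by positivity)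
      _ = (r + 1) * (E * Real.exp (ε / 20 * lP) * (K : ℝ) ^ om) := by rw [← hPE]
      _ ≤ (r + 1) * (2 * (2 ^ om * Z) * ((N : ℝ) ^ (2 * ε / 5) * Real.exp (2 * ε / 5 * l0)) * (K : ℝ) ^ om) := by
          refine mul_le_mul_of_nonneg_left ?_ (by positivity)
          refine mul_le_mul_of_nonneg_right ?_ (by positivity)
          exact mul_le_mul hE' hPδ (Real.exp_pos _).le
            (mul_nonneg zero_le_two (mul_nonneg (pow_nonneg zero_le_two _) hZ0.le))
      _ = 2 * (r + 1) * Real.exp (2 * ε / 5 * l0) * (N : ℝ) ^ (2 * ε / 5) * (2 ^ om * (K : ℝ) ^ om) * Z := by ring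
      _ ≤ 2 * (r + 1) * Real.exp (2 * ε / 5 * l0) * (N : ℝ) ^ (2 * ε / 5) * (C1 * (N : ℝ) ^ (ε / 20)) * Z := by
          refine mul_le_mul_of_nonneg_right ?_ hZ0.le
          exact mul_le_mul_of_nonneg_left hom2 (by positivity)
      _ = C3 * (N : ℝ) ^ (ε / 20) * (N : ℝ) ^ (2 * ε / 5) * Z := by
          rw [hC3]
          ring
      _ < A * Z := mul_lt_mul_of_pos_right hA3 hZ0
  exact_mod_cast hfin

end Pool.Agent.Helper98.ZD
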