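import Pool.Agent.Helper57.ZD.Core
import Pool.Agent.Helper57.ZD.Pig
import Pool.Agent.Helper57.ZD.Cop
import Pool.Agent.Helper57.ZD.Arith
import Pool.Agent.Helper98.ZD.MainNum

/-! Project ZD, piece Main. -/

set_option autoImplicit false

namespace Pool.Agent.Helper98.ZD

open Finset Pool.Agent.Helper90.ZD Pool.ZD

theorem main (ε : ℝ) (hε : 0 < ε) (hε1 : ε ≤ 1) : ∃ C : ℝ, 1 ≤ C ∧
    ∀ a b : ℕ, 0 < a → 0 < b → a.Coprime b →
      Real.log ((a + b : ℕ) : ℝ) ≤
        C * ((∏ q ∈ (a * b * (a + b)).primeFactors, q : ℕ) : ℝ) ^ ε := by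
  obtain ⟨r, K, W, hK, hW, hcore⟩ := core (ε / 20) (by positivity) (by linarith)
  obtain ⟨l0, C, hl0, hC, hnum⟩ := main_num ε hε hε1 (r + 1) K hK W hW
  refine ⟨C, hC, fun a b ha hb hab => ?_⟩
  by_contra hcon
  push Not at hcon
  set c : ℕ := a + b with hc
  set N : ℕ := ∏ q ∈ (a * b * c).primeFactors, q with hN
  set L : ℝ := Real.log (c : ℝ) with hL
  have hc0 : 0 < c := by omega
  have habc : a * b * c ≠ 0 := by positivity
  have hpr : ∀ q ∈ (a * b * c).primeFactors, q.Prime := fun q hq => Nat.prime_of_mem_primeFactors hq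
  have hN0 : 0 < N := Finset.prod_pos fun q hq => (hpr q hq).pos
  have hNf : N.primeFactors = (a * b * c).primeFactors := Nat.primeFactors_prod hpr
  have hN1 : (1 : ℝ) ≤ N := by exact_mod_cast hN0
  set X : ℕ := ⌊L / (4 * (Real.log N + l0))⌋₊ with hX
  obtain ⟨hX1, hXL, A, hA, hWA, hWX, hrest⟩ := hnum N L hN0 hcon X hX
  set P : ℕ := PP c X with hP
  set Q : Finset ℕ := (a * b).primeFactors with hQ
  have hlogN : 0 ≤ Real.log N := Real.log_nonneg hN1
  have hQN : Q ⊆ N.primeFactors := by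
    rw [hNf, hQ]
    exact Nat.primeFactors_mono (Dvd.intro _ rfl) habc
  have hcN : c.primeFactors ⊆ N.primeFactors := by
    rw [hNf]
    exact Nat.primeFactors_mono (Dvd.intro_left _ rfl) habc
  have hrad : ∀ s : Finset ℕ, s ⊆ N.primeFactors → Real.log ((∏ p ∈ s, p : ℕ) : ℝ) ≤ Real.log N := by
    intro s hs
    have h1 : (∏ p ∈ s, p) ≤ ∏ p ∈ (a * b * c).primeFactors, p := by
      rw [hNf] at hs
      exact Finset.prod_le_prod_of_subset_of_one_le' hs fun p hp _ => (hpr p hp).one_le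
    refine Real.log_le_log ?_ (by exact_mod_cast h1)
    have h2 : 0 < ∏ p ∈ s, p := Finset.prod_pos fun p hp => (Nat.prime_of_mem_primeFactors (hs hp)).pos
    exact_mod_cast h2
  obtain ⟨hs1, hs2⟩ := pp_size c X hc0 hX1
  have hP1 : L / X - Real.log N ≤ Real.log P := by
    have := hrad _ hcN
    linarith
  obtain ⟨hWP, hNP, h46, y, hy1, hyP, hyl, hpig⟩ := hrest P Q hP1 hs2 (Finset.card_le_card hQN)
  have hP2 : 2 ≤ P := by
    have h1 : 0 < Real.log P := by linarith
    by_contra h2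
    have h3 : P = 0 ∨ P = 1 := by omega
    rcases h3 with h3 | h3 <;> rw [h3] at h1 <;> simp at h1
  have hPc : P ^ X ∣ c := pp_dvd c X hc0
  have hPc1 : P ∣ c := (dvd_pow_self P (by omega)).trans hPc
  have habc' : (a * b).Coprime c := by
    rw [hc]
    refine Nat.Coprime.mul_left ?_ ?_
    · rw [Nat.coprime_self_add_right]
      exact hab
    · rw [Nat.coprime_add_self_right]
      exact hab.symm
  have hQP : ∀ q ∈ Q, q.Coprime P := fun q hq =>
    (Nat.Coprime.coprime_dvd_left (Nat.dvd_of_mem_primeFactors hq) habc').coprime_dvd_right hPc1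
  have hZ : ∀ s ∈ {s ∈ Icc 1 (N * y) | s.Coprime N}, 1 ≤ s ∧ s ≤ N * y ∧ s.Coprime P ∧ ∀ q ∈ Q, s.Coprime q := by
    intro s hs
    rw [mem_filter, mem_Icc] at hs
    refine ⟨hs.1.1, hs.1.2, ?_, ?_⟩
    · by_contra h1
      obtain ⟨p, hp, hp1, hp2⟩ := Nat.Prime.not_coprime_iff_dvd.1 h1
      have h2 : p ∈ N.primeFactors := hcN (Nat.mem_primeFactors.2 ⟨hp, hp2.trans hPc1, hc0.ne'⟩)
      exact (Nat.Prime.not_coprime_iff_dvd.2 ⟨p, hp, hp1, Nat.dvd_of_mem_primeFactors h2⟩) hs.2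
    · intro q hq
      exact hs.2.coprime_dvd_right (Nat.dvd_of_mem_primeFactors (hQN hq))
  obtain ⟨j, s, hcls, hsY⟩ := pigeon (r + 1) Q (kk a b) P A K (N * y)
    (fun q hq => Nat.prime_of_mem_primeFactors hq) hP2 hQP hA hK hyP _ hZ hpig
  have hlogq : ∀ q ∈ Q, 0 ≤ Real.log (q : ℝ) := fun q hq =>
    Real.log_nonneg (by exact_mod_cast (Nat.prime_of_mem_primeFactors hq).one_le)
  have hSQ : ∑ q ∈ Q, Real.log (q : ℝ) ≤ Real.log N := by
    have h1 := hrad Q hQN
    rw [Nat.cast_prod, Real.log_prod] at h1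
    · exact h1
    · intro q hq
      exact_mod_cast (Nat.prime_of_mem_primeFactors hq).ne_zero
  have hSK := kk_size a b ha hb hab
  rw [← hQ] at hSK
  have ha1 : (1 : ℝ) ≤ a := by exact_mod_cast ha
  have hb1 : (1 : ℝ) ≤ b := by exact_mod_cast hb
  have hcr : (c : ℝ) = a + b := by
    rw [hc]
    push_cast
    rfl
  have haL : Real.log a ≤ L := Real.log_le_log (by linarith) (by rw [hcr]; linarith)
  have hbL : Real.log b ≤ L := Real.log_le_log (by linarith) (by rw [hcr]; linarith)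
  have hLC : C < L := by
    refine lt_of_le_of_lt ?_ hcon
    exact le_mul_of_one_le_right (by linarith) (Real.one_le_rpow hN1 hε.le)
  have hLab : L - Real.log 2 ≤ Real.log a + Real.log b := by
    rw [← Real.log_mul (by linarith) (by linarith), hL, ← Real.log_div (by rw [hcr]; linarith) (by norm_num)]
    refine Real.log_le_log (by rw [hcr]; linarith) ?_
    rw [hcr]
    nlinarith
  refine hcore Q (kk a b) P A X (N * y) j s hcls hsY (Nat.mul_pos hN0 hy1) (kk_one a b (P ^ X) ha hb hab hPc) hWA hWX ?_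
    hWP (hSQ.trans hNP) ?_ hyl
  · by_contra hno
    push Not at hno
    have h1 : ∑ q ∈ Q, |(kk a b q : ℝ)| * Real.log q ≤ ∑ q ∈ Q, W * A * Real.log q :=
      Finset.sum_le_sum fun q hq => mul_le_mul_of_nonneg_right (hno q hq).le (hlogq q hq)
    rw [hSK, ← Finset.mul_sum] at h1
    have h2 : W * A * ∑ q ∈ Q, Real.log (q : ℝ) ≤ X * Real.log N :=
      mul_le_mul hWX hSQ (Finset.sum_nonneg hlogq) (Nat.cast_nonneg _)
    have h3 : (X : ℝ) * (4 * (Real.log N + l0)) = 4 * (X * Real.log N) + 4 * (X * l0) := by ring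
    have h4 : 0 ≤ (X : ℝ) * l0 := mul_nonneg (Nat.cast_nonneg _) (by linarith)
    have h5 := Real.log_two_lt_d9
    linarith
  · rw [hSK]
    linarith

end Pool.Agent.Helper98.ZD
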